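import Pool.Agent.Run7.h49.JT.Iface

/-!
# Piece C3: existence of the scheme (helper file for MP_245e03_an)
-/

set_option autoImplicit false
set_option maxHeartbeats 1000000

namespace Run7.h722.JT

open Pool.Agent.R277.JT Run7.h49.JT Set Filter Topology

/-- recursion with the whole history -/
theorem exists_hist {α : Type*} [Nonempty α] (Q : ℕ → (ℕ → α) → Prop)
    (loc : ∀ t F G, (∀ s ≤ t, F s = G s) → Q t F → Q t G)
    (step : ∀ t F, (∀ s < t, Q s F) → ∃ a, Q t (Function.update F t a)) :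
    ∃ f : ℕ → α, ∀ t, Q t f := by
  classical
  have hx : ∀ t (F : {F : ℕ → α // ∀ s < t, Q s F}),
      ∃ a, ∀ s < t + 1, Q s (Function.update F.1 t a) := by
    intro t F
    obtain ⟨a, ha⟩ := step t F.1 F.2
    refine ⟨a, fun s hs => ?_⟩
    rcases Nat.lt_succ_iff_lt_or_eq.1 hs with h | h
    · refine loc s F.1 _ (fun r hr => ?_) (F.2 s h)
      rw [Function.update_of_ne (by omega)]
    · rw [h]; exact ha
  choose A hA using hx
  let a0 : ℕ → α := fun _ => Classical.arbitrary α
  let G : (t : ℕ) → {F : ℕ → α // ∀ s < t, Q s F} := fun t =>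
    Nat.rec (motive := fun t => {F : ℕ → α // ∀ s < t, Q s F})
      ⟨a0, fun s hs => absurd hs (Nat.not_lt_zero s)⟩
      (fun t F => ⟨Function.update F.1 t (A t F), hA t F⟩) t
  have hG : ∀ t, (G (t + 1)).1 = Function.update (G t).1 t (A t (G t)) := fun t => rfl
  have hst : ∀ t s, s < t → (G t).1 s = (G (s + 1)).1 s := by
    intro t
    induction t with
    | zero => intro s hs; exact absurd hs (Nat.not_lt_zero s)
    | succ t ih =>
      intro s hs
      rcases Nat.lt_succ_iff_lt_or_eq.1 hs with h | h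
      · rw [hG t, Function.update_of_ne (by omega)]
        exact ih s h
      · rw [h]
  refine ⟨fun t => (G (t + 1)).1 t, fun t => ?_⟩
  refine loc t (G (t + 1)).1 _ (fun s hs => ?_) ((G (t + 1)).2 t (Nat.lt_succ_self t))
  exact hst (t + 1) s (by omega)

/-- one stage of the construction -/
structure Nd where
  c : Br
  G : Set Br
  m : ℕ
  k : ℕ
  K : ℕ
  I : Finset ℕ

instance : Nonempty Nd := ⟨⟨fun _ => true, ∅, 0, 0, 0, ∅⟩⟩

/-- the conditions on stage `t` -/
structure St (Z : Set Br) (y : Br → D Tree) (σ : Br → ℕ → Br) (η : ℕ → ℝ) (t : ℕ)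
    (F : ℕ → Nd) : Prop where
  good : Good y σ (F t).c (F t).G (F t).m (F t).k (F t).I (η t)
  sub : (F t).G ⊆ Z
  m1 : 1 ≤ (F t).m
  gsub : 1 ≤ t → (F t).G ⊆ (F (t / 2)).G
  Klt : ∀ s < t, (F s).K < (F t).K
  kle : ∀ s < t, (F s).k ≤ (F t).K
  sep : ∀ s < t, ∀ s' < t, ∀ i ∈ (F s).I, ∀ i' ∈ (F s').I, σ (F s).c i ≠ σ (F s').c i' →
    br (σ (F s).c i) (F t).K ≠ br (σ (F s').c i') (F t).K
  agree : 1 ≤ t → ∀ i < (F (t / 2)).m, br (σ (F t).c i) (F t).K = br (σ (F (t / 2)).c i) (F t).K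
  fresh : 1 ≤ t → ∀ i ∈ (F (t / 2)).I, ∀ s < t, ∀ i' ∈ (F s).I, σ (F t).c i ≠ σ (F s).c i'
  Isub : 1 ≤ t → (F (t / 2)).I ⊆ (F t).I
  Iold : 1 ≤ t → ∀ i ∈ (F t).I, i < (F (t / 2)).m → i ∈ (F (t / 2)).I

theorem St.loc {Z : Set Br} {y : Br → D Tree} {σ : Br → ℕ → Br} {η : ℕ → ℝ} (t : ℕ)
    (F G : ℕ → Nd) (h : ∀ s ≤ t, F s = G s) (hF : St Z y σ η t F) : St Z y σ η t G := by
  have h1 : G t = F t := (h t le_rfl).symm
  have h2 : G (t / 2) = F (t / 2) := (h (t / 2) (Nat.div_le_self t 2)).symm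
  have h3 : ∀ s < t, G s = F s := fun s hs => (h s hs.le).symm
  constructor
  · rw [h1]; exact hF.good
  · rw [h1]; exact hF.sub
  · rw [h1]; exact hF.m1
  · rw [h1, h2]; exact hF.gsub
  · intro s hs; rw [h1, h3 s hs]; exact hF.Klt s hs
  · intro s hs; rw [h1, h3 s hs]; exact hF.kle s hs
  · intro s hs s' hs'
    rw [h1, h3 s hs, h3 s' hs']; exact hF.sep s hs s' hs'
  · rw [h1, h2]; exact hF.agree
  · rw [h1, h2]
    intro ht i hi s hs
    rw [h3 s hs]
    exact hF.fresh ht i hi s hs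
  · rw [h1, h2]; exact hF.Isub
  · rw [h1, h2]; exact hF.Iold

theorem St.step (hC1 : S_C1) (hC2 : S_C2) {Z : Set Br} {y : Br → D Tree} {σ : Br → ℕ → Br} {M : ℝ}
    (hf : Fam Z y σ M) {η : ℕ → ℝ} (hη : ∀ t, 0 < η t) (t : ℕ) (F : ℕ → Nd)
    (h : ∀ s < t, St Z y σ η s F) : ∃ a, St Z y σ η t (Function.update F t a) := by
  classical
  rcases Nat.eq_zero_or_pos t with ht | ht
  · subst ht
    obtain ⟨c, Γ, m, k, I, h1, h2, h3, h4⟩ := hC1 Z y σ M hf Z (η 0) 1 0 hf.unc (hη 0)
    refine ⟨⟨c, Γ, m, k, 0, I⟩, ?_⟩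
    constructor
    · rw [Function.update_self]; exact h4
    · rw [Function.update_self]; exact h1
    · rw [Function.update_self]; exact h2
    · intro h0; omega
    · intro s hs; omega
    · intro s hs; omega
    · intro s hs; omega
    · intro h0; omega
    · intro h0; omega
    · intro h0; omega
    · intro h0; omega
  · have hp : t / 2 < t := Nat.div_lt_self ht (by norm_num)
    have hP := h (t / 2) hp
    set p := t / 2 with hpd
    let E : Finset Br := (Finset.range t).biUnion (fun s => (F s).I.image (σ (F s).c))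
    have hE : ∀ s < t, ∀ i ∈ (F s).I, σ (F s).c i ∈ E := by
      intro s hs i hi
      exact Finset.mem_biUnion.2 ⟨s, Finset.mem_range.2 hs, Finset.mem_image_of_mem _ hi⟩
    obtain ⟨K0, hK0⟩ := exists_sep E
    set K := K0 + ∑ s ∈ Finset.range t, ((F s).K + (F s).k) + 1 with hK
    have hKs : Sep E K := hK0.mono (by omega)
    have hKK : ∀ s < t, (F s).K + (F s).k < K := by
      intro s hs
      have h1 := Finset.single_le_sum (f := fun s => (F s).K + (F s).k) (s := Finset.range t)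
        (fun i _ => Nat.zero_le _) (Finset.mem_range.2 hs)
      change (F s).K + (F s).k ≤ ∑ s ∈ Finset.range t, ((F s).K + (F s).k) at h1
      omega
    obtain ⟨c', Γ', m', k', I', g1, g2, g3, g4, g5, g6, g7⟩ :=
      hC2 Z y σ M hf (F p).c (F p).G (F p).m (F p).k (F p).I (η p) hP.good E K (η t) (hη t)
    refine ⟨⟨c', Γ', m', k', K, I'⟩, ?_⟩
    have u1 : ∀ a, Function.update F t a p = F p := fun a => Function.update_of_ne hp.ne _ _
    have u2 : ∀ a, ∀ s < t, Function.update F t a s = F s :=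
      fun a s hs => Function.update_of_ne hs.ne _ _
    constructor
    · rw [Function.update_self]; exact g3
    · rw [Function.update_self]; exact g1.trans hP.sub
    · rw [Function.update_self]; exact hP.m1.trans g2
    · intro _; rw [Function.update_self, u1]; exact g1
    · intro s hs
      rw [Function.update_self, u2 _ s hs]
      have := hKK s hs
      change (F s).K < K
      omega
    · intro s hs
      rw [Function.update_self, u2 _ s hs]
      have := hKK s hs
      change (F s).k ≤ K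
      omega
    · intro s hs s' hs' i hi i' hi' hne
      rw [u2 _ s hs] at hi
      rw [u2 _ s' hs'] at hi'
      rw [u2 _ s hs, u2 _ s' hs'] at hne
      rw [Function.update_self, u2 _ s hs, u2 _ s' hs']
      exact hKs _ (hE s hs i hi) _ (hE s' hs' i' hi') hne
    · intro _ i hi
      rw [u1] at hi
      rw [Function.update_self, u1]
      exact g4 i hi
    · intro _ i hi s hs i' hi' heq
      rw [u1] at hi
      rw [u2 _ s hs] at hi'
      rw [Function.update_self, u2 _ s hs] at heq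
      apply g5 i hi
      rw [heq]
      exact hE s hs i' hi'
    · intro _; rw [Function.update_self, u1]; exact g6
    · intro _
      rw [Function.update_self, u1]
      exact g7

section verify

variable {Z : Set Br} {y : Br → D Tree} {σ : Br → ℕ → Br} {η : ℕ → ℝ} {F : ℕ → Nd}

lemma anc_sub (h : ∀ t, St Z y σ η t F) {p e : ℕ} (ha : anc p e) : (F e).G ⊆ (F p).G := by
  obtain ⟨j, hj⟩ := ha
  subst hj
  induction j with
  | zero => rw [pow_zero, Nat.div_one]
  | succ j ih =>
    rw [pow_succ, ← Nat.div_div_eq_div_mul]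
    rcases Nat.eq_zero_or_pos (e / 2 ^ j) with h0 | h0
    · rw [h0, Nat.zero_div]; rw [h0] at ih; exact ih
    · exact ih.trans ((h _).gsub h0)

lemma apx_le (h : ∀ t, St Z y σ η t F) {p e : ℕ} (ha : anc p e) :
    ‖y (F e).c - y (F p).c - ∑ i ∈ (F p).I, cf y σ (F p).c i •
      (sg (br (σ (F e).c i)) (F p).k - sg (br (σ (F p).c i)) (F p).k)‖ ≤ 4 * η p := by
  classical
  have hg := (h p).good
  have hz : (F e).c ∈ (F p).G := anc_sub h ha (h e).good.mem
  set z := (F e).c with hzd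
  set c := (F p).c with hc
  set m := (F p).m with hm
  set k := (F p).k with hk
  set I := (F p).I with hI
  have e1 : ∑ i ∈ I, cf y σ c i • (sg (br (σ z i)) k - sg (br (σ c i)) k) =
      ∑ i ∈ Finset.range m, cf y σ c i • (sg (br (σ z i)) k - sg (br (σ c i)) k) := by
    apply Finset.sum_subset
    · intro i hi; exact Finset.mem_range.2 (hg.Ilt i hi)
    · intro i hi hiI
      rw [hg.con i (Finset.mem_range.1 hi) hiI z hz, sub_self, smul_zero]
  rw [e1]
  have e2 : y z - y c - ∑ i ∈ Finset.range m, cf y σ c i • (sg (br (σ z i)) k - sg (br (σ c i)) k) =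
      cut (y z - y c) (lo Tree k) +
      (cut (y z) (lv Tree k) - ∑ i ∈ Finset.range m, cf y σ z i • sg (br (σ z i)) k) -
      (cut (y c) (lv Tree k) - ∑ i ∈ Finset.range m, cf y σ c i • sg (br (σ c i)) k) +
      ∑ i ∈ Finset.range m, (cf y σ z i - cf y σ c i) • sg (br (σ z i)) k := by
    have a1 := cut_lo_add (y z) k
    have a2 := cut_lo_add (y c) k
    have a3 : ∑ i ∈ Finset.range m, cf y σ c i • (sg (br (σ z i)) k - sg (br (σ c i)) k) =
        ∑ i ∈ Finset.range m, cf y σ c i • sg (br (σ z i)) k -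
        ∑ i ∈ Finset.range m, cf y σ c i • sg (br (σ c i)) k := by
      rw [← Finset.sum_sub_distrib]
      exact Finset.sum_congr rfl fun i _ => smul_sub _ _ _
    have a4 : ∑ i ∈ Finset.range m, (cf y σ z i - cf y σ c i) • sg (br (σ z i)) k =
        ∑ i ∈ Finset.range m, cf y σ z i • sg (br (σ z i)) k -
        ∑ i ∈ Finset.range m, cf y σ c i • sg (br (σ z i)) k := by
      rw [← Finset.sum_sub_distrib]
      exact Finset.sum_congr rfl fun i _ => by module
    rw [a3, a4, cut_sub]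
    nth_rewrite 1 [← a1]
    nth_rewrite 1 [← a2]
    abel
  rw [e2]
  have n1 := hg.low z hz
  have n2 := hg.apx z hz
  have n3 := hg.apx c hg.mem
  have n4 : ‖∑ i ∈ Finset.range m, (cf y σ z i - cf y σ c i) • sg (br (σ z i)) k‖ ≤ η p := by
    refine (norm_sum_le _ _).trans (le_trans ?_ (hg.coef z hz))
    apply Finset.sum_le_sum
    intro i _
    rw [norm_smul, Real.norm_eq_abs]
    exact mul_le_of_le_one_right (abs_nonneg _) (norm_sg_le _ _)
  have t1 := norm_add_le (cut (y z - y c) (lo Tree k) +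
      (cut (y z) (lv Tree k) - ∑ i ∈ Finset.range m, cf y σ z i • sg (br (σ z i)) k) -
      (cut (y c) (lv Tree k) - ∑ i ∈ Finset.range m, cf y σ c i • sg (br (σ c i)) k))
      (∑ i ∈ Finset.range m, (cf y σ z i - cf y σ c i) • sg (br (σ z i)) k)
  have t2 := norm_sub_le (cut (y z - y c) (lo Tree k) +
      (cut (y z) (lv Tree k) - ∑ i ∈ Finset.range m, cf y σ z i • sg (br (σ z i)) k))
      (cut (y c) (lv Tree k) - ∑ i ∈ Finset.range m, cf y σ c i • sg (br (σ c i)) k)
  have t3 := norm_add_le (cut (y z - y c) (lo Tree k))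
      (cut (y z) (lv Tree k) - ∑ i ∈ Finset.range m, cf y σ z i • sg (br (σ z i)) k)
  linarith

lemma sum_cf_sq {M : ℝ} (hf : Fam Z y σ M) {c : Br} (hc : c ∈ Z) (J : Finset ℕ) :
    ∑ i ∈ J, (cf y σ c i) ^ 2 ≤ M ^ 2 := by
  classical
  have h1 := sum_Lm_sq (y c) (J.image (σ c))
  rw [Finset.sum_image (fun i _ j _ hij => hf.inj c hij)] at h1
  refine le_trans h1 ?_
  exact pow_le_pow_left₀ (norm_nonneg _) (hf.bd c hc) 2

end verify

lemma geo_eps {θ : ℝ} (hθ : 0 < θ) : Geo (fun p => 4 * (θ / 4 * (1 / 2) ^ (4 * p + 4))) θ := by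
  intro b
  have h : ∀ q, b + 1 ≤ 4 * q + 4 → 4 * (θ / 4 * (1 / 2 : ℝ) ^ (4 * q + 4)) ≤
      θ * (1 / 2) ^ (b + 1) := by
    intro q hq
    have h1 : (1 / 2 : ℝ) ^ (4 * q + 4) ≤ (1 / 2) ^ (b + 1) :=
      pow_le_pow_of_le_one (by norm_num) (by norm_num) hq
    have h2 := mul_le_mul_of_nonneg_left h1 hθ.le
    calc 4 * (θ / 4 * (1 / 2 : ℝ) ^ (4 * q + 4)) = θ * (1 / 2 : ℝ) ^ (4 * q + 4) := by ring
      _ ≤ _ := h2
  refine ⟨by positivity, h _ (by omega), h _ (by omega)⟩

/-- C3. Existence of the scheme. -/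
theorem prove_C3 : S_A3 → S_C1 → S_C2 → S_C3 := by
  classical
  intro hA3 hC1 hC2 Z y σ M hf θ hθ
  set η : ℕ → ℝ := fun p => θ / 4 * (1 / 2) ^ (4 * p + 4) with hηd
  have hη : ∀ t, 0 < η t := fun t => by simp only [hηd]; positivity
  obtain ⟨F, hF⟩ := exists_hist (St Z y σ η) St.loc (St.step hC1 hC2 hf hη)
  have hcZ : ∀ t, (F t).c ∈ Z := fun t => (hF t).sub (hF t).good.mem
  refine ⟨fun t => (F t).c, fun t => (F t).I, fun t => (F t).k, fun t => (F t).K,
    fun p => 4 * η p, hcZ, geo_eps hθ, ?_⟩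
  constructor
  · intro s t hst; exact (hF t).Klt s hst
  · intro s t hst; exact (hF t).kle s hst
  · intro t ht; exact (hF t).Isub ht
  · -- zero
    by_contra h0
    have hg := (hF 0).good
    apply hg.cond 0
    apply (Set.countable_singleton (F 0).c).mono
    intro z hz
    have h1 := hg.con 0 (hF 0).m1 h0 z hz.1
    rw [hf.zero, hf.zero] at h1
    exact h1
  · intro t
    change Lm (br (σ (F t).c 0)) (y (F t).c) = 1
    rw [hf.zero]
    exact hf.one _ (hcZ t)
  · intro t; exact sum_cf_sq hf (hcZ t) _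
  · intro t ht
    have hz : (F t).c ∈ (F (t / 2)).G := (hF t).gsub ht (hF t).good.mem
    have h1 := hA3 (y (F t).c) (σ (F t).c) (hf.inj _) (F (t / 2)).m (F (t / 2)).k (η (t / 2))
      ((hF (t / 2)).good.apx _ hz) ((F t).I \ (F (t / 2)).I) (by
        intro i hi
        by_contra hlt
        rw [Finset.mem_sdiff] at hi
        exact hi.2 ((hF t).Iold ht i hi.1 (not_le.1 hlt)))
    have h2 : (η (t / 2)) ^ 2 ≤ (4 * η (t / 2)) ^ 2 :=
      pow_le_pow_left₀ (hη _).le (by linarith [hη (t / 2)]) 2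
    exact h1.trans h2
  · intro t ht i hi
    exact (hF t).agree ht i ((hF (t / 2)).good.Ilt i hi)
  · intro t; exact (hF t).sep
  · intro t ht; exact (hF t).fresh ht
  · intro p e ha i hi i' hi' hne
    have hz : (F e).c ∈ (F p).G := anc_sub hF ha (hF e).good.mem
    exact (hF p).good.sep _ hz i ((hF p).good.Ilt i hi) i' ((hF p).good.Ilt i' hi') hne
  · intro p e ha; exact apx_le hF ha

end Run7.h722.JT
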